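import Pool.Agent.BEK.Stmts
import Pool.Agent.Helper75_BED.KGA

/-!
# Row SPK (squad BEK, MP_be01ff_an): the radial spectrum of the annulus
-/

set_option autoImplicit false

namespace Pool.Agent.BEK.H62

open Set Filter Topology MeasureTheory
open scoped InnerProductSpace ENNReal
open Pool.Agent.BE01 Pool.Agent.BED Pool.Agent.BEJ Pool.Agent.BEK
open Pool.Agent.BES (Lg)

noncomputable section

/-- smooth on `(0, ∞)` -/
def Sm (g : ℝ → ℝ) : Prop := ContDiffOn ℝ ((⊤ : ℕ∞) : WithTop ℕ∞) g (Ioi 0)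

theorem Sm.d1 {g : ℝ → ℝ} (h : Sm g) {t : ℝ} (ht : 0 < t) : HasDerivAt g (deriv g t) t :=
  ((ContDiffOn.contDiffAt h (Ioi_mem_nhds ht)).differentiableAt (by simp)).hasDerivAt

theorem Sm.d2 {g : ℝ → ℝ} (h : Sm g) {t : ℝ} (ht : 0 < t) :
    HasDerivAt (deriv g) (deriv (deriv g) t) t := by
  have h1 : ContDiffOn ℝ 1 (deriv g) (Ioi 0) :=
    ContDiffOn.deriv_of_isOpen h isOpen_Ioi
      (WithTop.coe_le_coe.2 (le_top : ((1 : ℕ∞) + 1) ≤ ⊤))
  exact ((h1.contDiffAt (Ioi_mem_nhds ht)).differentiableAt (by simp)).hasDerivAt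

theorem Sm.add {f g : ℝ → ℝ} (hf : Sm f) (hg : Sm g) (c : ℝ) : Sm (fun t => f t + c * g t) :=
  ContDiffOn.add hf (contDiffOn_const.mul hg)

theorem lg_add {f g : ℝ → ℝ} (hf : Sm f) (hg : Sm g) (c l : ℝ) {t : ℝ} (ht : 0 < t) :
    Lg 0 l (fun t => f t + c * g t) t = Lg 0 l f t + c * Lg 0 l g t := by
  have e1 : deriv (fun t => f t + c * g t) =ᶠ[𝓝 t] fun t => deriv f t + c * deriv g t := by
    filter_upwards [Ioi_mem_nhds ht] with r hr
    exact ((hf.d1 hr).add ((hg.d1 hr).const_mul c)).deriv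
  have e2 : deriv (deriv (fun t => f t + c * g t)) t =
      deriv (deriv f) t + c * deriv (deriv g) t := by
    rw [e1.deriv_eq]
    exact ((hf.d2 ht).add ((hg.d2 ht).const_mul c)).deriv
  unfold Lg
  rw [e2, e1.eq_of_nhds]
  ring

/-- a smooth solution of the inhomogeneous equation with right hand side `t^j` -/
theorem exW (s : ℝ) (hs : 0 < s) (j : ℕ) :
    ∃ W : ℝ → ℝ, Sm W ∧ ∀ t, 0 < t → Lg 0 (s ^ 2) W t = t ^ j := by
  have hs2 : s ^ 2 ≠ 0 := by positivity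
  induction j with
  | zero =>
    refine ⟨fun _ => 1 / s ^ 2, contDiffOn_const, fun t ht => ?_⟩
    unfold Lg
    simp only [deriv_const', mul_zero, zero_add, pow_zero]
    field_simp
  | succ j ih =>
    obtain ⟨W, hW, hWl⟩ := ih
    have hp : Sm (fun t => (1 / s ^ 2) * t ^ (j + 1)) :=
      ContDiff.contDiffOn (contDiff_const.mul (contDiff_id.pow _))
    refine ⟨fun t => (1 / s ^ 2) * t ^ (j + 1) + (-(4 * ((j : ℝ) + 1) ^ 2 / s ^ 2)) * W t,
      hp.add hW _, fun t ht => ?_⟩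
    rw [lg_add hp hW _ _ ht, hWl t ht]
    have e1 : deriv (fun t : ℝ => (1 / s ^ 2) * t ^ (j + 1)) =
        fun t => (1 / s ^ 2) * (((j : ℝ) + 1) * t ^ j) := by
      funext r
      have h := (hasDerivAt_pow (j + 1) r).const_mul (1 / s ^ 2)
      rw [Nat.add_sub_cancel] at h
      push_cast at h
      exact h.deriv
    have e2 : deriv (fun t : ℝ => (1 / s ^ 2) * (((j : ℝ) + 1) * t ^ j)) t =
        (1 / s ^ 2) * (((j : ℝ) + 1) * ((j : ℝ) * t ^ (j - 1))) :=
      (((hasDerivAt_pow j t).const_mul ((j : ℝ) + 1)).const_mul (1 / s ^ 2)).deriv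
    have e3 : t * ((j : ℝ) * t ^ (j - 1)) = (j : ℝ) * t ^ j := by
      rcases j with _ | j
      · simp
      · rw [Nat.add_sub_cancel, pow_succ]
        ring
    unfold Lg
    rw [e1, e2]
    have e4 : 4 * t * (1 / s ^ 2 * (((j : ℝ) + 1) * ((j : ℝ) * t ^ (j - 1)))) =
        4 * (1 / s ^ 2) * ((j : ℝ) + 1) * ((j : ℝ) * t ^ j) := by
      rw [← e3]
      ring
    rw [e4]
    field_simp
    ring

theorem isOpen_An (a b : ℝ) : IsOpen (An a b) :=
  (isOpen_lt continuous_const continuous_norm).inter (isOpen_lt continuous_norm continuous_const)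

instance fin_An (a b : ℝ) : IsFiniteMeasure (mu (An a b)) := by
  constructor
  unfold mu
  rw [Measure.restrict_apply_univ]
  refine (measure_mono (fun x hx => ?_)).trans_lt (measure_closedBall_lt_top (x := (0 : En 2)) (r := b))
  rw [mem_closedBall_zero_iff]
  exact hx.2.le

theorem int_mul {a b : ℝ} (u : Lp ℝ 2 (mu (An a b))) {f : ℝ → ℝ} (hf : Continuous f) :
    Integrable (fun x => u x * f (‖x‖ ^ 2)) (mu (An a b)) := by
  obtain ⟨M, hM⟩ := (isCompact_Icc (a := (0 : ℝ)) (b := b ^ 2)).exists_bound_of_continuousOn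
    hf.continuousOn
  refine ((Lp.memLp u).integrable (by norm_num)).mul_bdd (c := M)
    (hf.comp (continuous_norm.pow 2)).aestronglyMeasurable ?_
  have hae : ∀ᵐ x ∂(mu (An a b)), x ∈ An a b := ae_restrict_mem (isOpen_An a b).measurableSet
  filter_upwards [hae] with x hx
  apply hM
  exact ⟨sq_nonneg _, pow_le_pow_left₀ (norm_nonneg _) hx.2.le 2⟩

theorem gg_eq (c : ℂ) (s : ℝ) {r : ℝ} (hr : 0 < r) :
    gg c s (r ^ 2) = c.re * (HH (s * r)).im - c.im * (HH (s * r)).re := by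
  unfold gg
  rw [Real.sqrt_sq hr.le, Complex.mul_im, Complex.conj_re, Complex.conj_im]
  ring

theorem int_lg {a b : ℝ} (ha : 0 < a) (u : Lp ℝ 2 (mu (An a b))) {f g : ℝ → ℝ}
    (h : ∀ t, 0 < t → f t = g t) :
    ∫ x, u x * f (‖x‖ ^ 2) ∂(mu (An a b)) = ∫ x, u x * g (‖x‖ ^ 2) ∂(mu (An a b)) := by
  have hae : ∀ᵐ x ∂(mu (An a b)), x ∈ An a b := ae_restrict_mem (isOpen_An a b).measurableSet
  apply integral_congr_ae
  filter_upwards [hae] with x hx
  have h0 : 0 < ‖x‖ := ha.trans hx.1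
  rw [h _ (by positivity)]

theorem spk (ork : OrkStmt) (rdk : RdkStmt) (hsk : HskStmt) : SpkStmt := by
  intro a b s ha hab hs
  have hb : 0 < b := ha.trans hab
  constructor
  · intro hD u hr he
    apply rdk a b u ha hab hr
    intro j
    obtain ⟨W, hW, hWl⟩ := exW s hs j
    obtain ⟨A, hA⟩ : ∃ A : ℂ, A = HH (s * a) := ⟨_, rfl⟩
    obtain ⟨B, hB⟩ : ∃ B : ℂ, B = HH (s * b) := ⟨_, rfl⟩
    have hD' : A.re * B.im - A.im * B.re ≠ 0 := by
      intro h0
      apply hD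
      unfold Dc
      rw [← hA, ← hB, Complex.mul_im, Complex.conj_re, Complex.conj_im]
      linarith
    obtain ⟨p, hp⟩ : ∃ p : ℝ, p = W (a ^ 2) := ⟨_, rfl⟩
    obtain ⟨q, hq⟩ : ∃ q : ℝ, q = W (b ^ 2) := ⟨_, rfl⟩
    obtain ⟨c, hc⟩ : ∃ c : ℂ, c = ⟨(A.re * q - B.re * p) / (A.re * B.im - A.im * B.re),
      (A.im * q - B.im * p) / (A.re * B.im - A.im * B.re)⟩ := ⟨_, rfl⟩
    have hg := hsk c s hs
    have v1 : gg c s (a ^ 2) = p := by
      rw [gg_eq c s ha, ← hA, hc]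
      show (A.re * q - B.re * p) / (A.re * B.im - A.im * B.re) * A.im -
        (A.im * q - B.im * p) / (A.re * B.im - A.im * B.re) * A.re = p
      rw [div_mul_eq_mul_div, div_mul_eq_mul_div, ← sub_div, div_eq_iff hD']
      ring
    have v2 : gg c s (b ^ 2) = q := by
      rw [gg_eq c s hb, ← hB, hc]
      show (A.re * q - B.re * p) / (A.re * B.im - A.im * B.re) * B.im -
        (A.im * q - B.im * p) / (A.re * B.im - A.im * B.re) * B.re = q
      rw [div_mul_eq_mul_div, div_mul_eq_mul_div, ← sub_div, div_eq_iff hD']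
      ring
    have h1 := ork a b (s ^ 2) (fun t => W t + (-1) * gg c s t) u ha hab (hW.add hg.1 (-1))
      (by show W (a ^ 2) + (-1) * gg c s (a ^ 2) = 0; rw [v1, hp]; ring)
      (by show W (b ^ 2) + (-1) * gg c s (b ^ 2) = 0; rw [v2, hq]; ring) he
    rw [← h1]
    exact (int_lg ha u (f := Lg 0 (s ^ 2) (fun t => W t + (-1) * gg c s t)) (g := fun t => t ^ j)
      (fun t ht => by rw [lg_add hW hg.1 (-1) _ ht, hWl t ht, hg.2 t ht]; ring)).symm
  · intro hH φ hφ0 hφr hφe u hur hue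
    obtain ⟨A, hA⟩ : ∃ A : ℂ, A = HH (s * a) := ⟨_, rfl⟩
    have hN : A.re ^ 2 + A.im ^ 2 ≠ 0 := by
      intro h0
      apply hH
      rw [← hA]
      have h1 : A.re = 0 := by nlinarith [sq_nonneg A.re, sq_nonneg A.im]
      have h2 : A.im = 0 := by nlinarith [sq_nonneg A.re, sq_nonneg A.im]
      exact Complex.ext h1 h2
    obtain ⟨c, hc⟩ : ∃ c : ℂ, c = ⟨A.im / (A.re ^ 2 + A.im ^ 2), -A.re / (A.re ^ 2 + A.im ^ 2)⟩ :=
      ⟨_, rfl⟩
    have hg := hsk c s hs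
    have v1 : gg c s (a ^ 2) = 1 := by
      rw [gg_eq c s ha, ← hA, hc]
      show A.im / (A.re ^ 2 + A.im ^ 2) * A.im - -A.re / (A.re ^ 2 + A.im ^ 2) * A.re = 1
      field_simp
      ring
    have hba : b ^ 2 - a ^ 2 ≠ 0 := by
      have : a ^ 2 < b ^ 2 := pow_lt_pow_left₀ hab ha.le (by norm_num)
      linarith
    obtain ⟨χ, hχ⟩ : ∃ χ : ℝ → ℝ, χ = fun t => (t - a ^ 2) / (b ^ 2 - a ^ 2) := ⟨_, rfl⟩
    have hχs : Sm χ := by
      rw [hχ]
      exact ContDiff.contDiffOn ((contDiff_id.sub contDiff_const).div_const _)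
    obtain ⟨Lc, hLc⟩ : ∃ Lc : ℝ → ℝ, Lc = fun t => 4 / (b ^ 2 - a ^ 2) +
      s ^ 2 * ((t - a ^ 2) / (b ^ 2 - a ^ 2)) := ⟨_, rfl⟩
    have hLcc : Continuous Lc := by
      rw [hLc]
      fun_prop
    have hχl : ∀ t, Lg 0 (s ^ 2) χ t = Lc t := by
      intro t
      have e1 : deriv χ = fun _ => 1 / (b ^ 2 - a ^ 2) := by
        funext r
        rw [hχ]
        exact (((hasDerivAt_id r).sub_const (a ^ 2)).div_const (b ^ 2 - a ^ 2)).deriv
      unfold Lg
      rw [e1, deriv_const, hLc, hχ]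
      ring
    -- the moments of a radial eigenfunction
    have key : ∀ j : ℕ, ∃ β : ℝ, ∀ w : Lp ℝ 2 (mu (An a b)), IsEig (An a b) (s ^ 2) w →
        ∫ x, w x * (‖x‖ ^ 2) ^ j ∂(mu (An a b)) =
          β * ∫ x, w x * Lc (‖x‖ ^ 2) ∂(mu (An a b)) := by
      intro j
      obtain ⟨W, hW, hWl⟩ := exW s hs j
      refine ⟨W (b ^ 2) - W (a ^ 2) * gg c s (b ^ 2), fun w hw => ?_⟩
      obtain ⟨β, hβ⟩ : ∃ β : ℝ, β = W (b ^ 2) - W (a ^ 2) * gg c s (b ^ 2) := ⟨_, rfl⟩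
      rw [← hβ]
      have s1 : Sm (fun t => W t + (-(W (a ^ 2))) * gg c s t) := hW.add hg.1 _
      have h1 := ork a b (s ^ 2)
        (fun t => (W t + (-(W (a ^ 2))) * gg c s t) + (-β) * χ t) w ha hab (s1.add hχs _)
        (by
          show (W (a ^ 2) + (-(W (a ^ 2))) * gg c s (a ^ 2)) + (-β) * χ (a ^ 2) = 0
          rw [v1, hχ]
          ring)
        (by
          show (W (b ^ 2) + (-(W (a ^ 2))) * gg c s (b ^ 2)) + (-β) * χ (b ^ 2) = 0
          have e : χ (b ^ 2) = 1 := by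
            rw [hχ]
            exact div_self hba
          rw [e, hβ]
          ring) hw
      have h2 : ∫ x, w x * Lg 0 (s ^ 2)
          (fun t => (W t + (-(W (a ^ 2))) * gg c s t) + (-β) * χ t) (‖x‖ ^ 2) ∂(mu (An a b)) =
          ∫ x, w x * (fun t => t ^ j + (-β) * Lc t) (‖x‖ ^ 2) ∂(mu (An a b)) :=
        int_lg ha w (f := Lg 0 (s ^ 2)
          (fun t => (W t + (-(W (a ^ 2))) * gg c s t) + (-β) * χ t))
          (g := fun t => t ^ j + (-β) * Lc t) (fun t ht => by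
          rw [lg_add s1 hχs _ _ ht, lg_add hW hg.1 _ _ ht, hWl t ht, hg.2 t ht, hχl]
          ring)
      rw [h2] at h1
      have i1 : Integrable (fun x => w x * (‖x‖ ^ 2) ^ j) (mu (An a b)) :=
        int_mul w (f := fun t => t ^ j) (by fun_prop)
      have i2 : Integrable (fun x => w x * Lc (‖x‖ ^ 2)) (mu (An a b)) := int_mul w hLcc
      have h3 : ∫ x, w x * (fun t => t ^ j + (-β) * Lc t) (‖x‖ ^ 2) ∂(mu (An a b)) =
          ∫ x, w x * (‖x‖ ^ 2) ^ j ∂(mu (An a b)) -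
            β * ∫ x, w x * Lc (‖x‖ ^ 2) ∂(mu (An a b)) := by
        rw [← integral_const_mul, ← integral_sub i1 (i2.const_mul β)]
        apply integral_congr_ae
        refine Eventually.of_forall fun x => ?_
        show w x * ((‖x‖ ^ 2) ^ j + (-β) * Lc (‖x‖ ^ 2)) =
          w x * (‖x‖ ^ 2) ^ j - β * (w x * Lc (‖x‖ ^ 2))
        ring
      rw [h3] at h1
      linarith
    choose β hβ using key
    obtain ⟨Λφ, hΛφ⟩ : ∃ z : ℝ, z = ∫ x, φ x * Lc (‖x‖ ^ 2) ∂(mu (An a b)) := ⟨_, rfl⟩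
    obtain ⟨Λu, hΛu⟩ : ∃ z : ℝ, z = ∫ x, u x * Lc (‖x‖ ^ 2) ∂(mu (An a b)) := ⟨_, rfl⟩
    have hφΛ : Λφ ≠ 0 := by
      intro h0
      apply hφ0
      apply rdk a b φ ha hab hφr
      intro j
      rw [hβ j φ hφe, ← hΛφ, h0, mul_zero]
    have hDom : Dom (An a b) := by
      refine ⟨isOpen_An a b, ?_, ?_⟩
      · refine Metric.isBounded_closedBall.subset (t := Metric.closedBall (0 : En 2) b) ?_
        intro x hx
        rw [mem_closedBall_zero_iff]
        exact hx.2.le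
      · refine ⟨EuclideanSpace.single 0 ((a + b) / 2), ?_⟩
        have e : ‖(EuclideanSpace.single 0 ((a + b) / 2) : En 2)‖ = (a + b) / 2 := by
          rw [EuclideanSpace.norm_single, Real.norm_eq_abs, abs_of_pos (by linarith)]
        exact ⟨by rw [e]; linarith, by rw [e]; linarith⟩
    obtain ⟨K, -, hK⟩ := Pool.Agent.BED.H75.kga 2 (An a b) Set.univ hDom (fun g _ x => by
      show (a < ‖g x‖ ∧ ‖g x‖ < b) ↔ (a < ‖x‖ ∧ ‖x‖ < b)
      rw [g.norm_map])
    have hv : Λφ • u - Λu • φ = 0 := by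
      apply rdk a b _ ha hab
      · exact (hK _).1 (K.sub_mem (K.smul_mem _ ((hK _).2 hur)) (K.smul_mem _ ((hK _).2 hφr)))
      · intro j
        have i1 : Integrable (fun x => u x * (‖x‖ ^ 2) ^ j) (mu (An a b)) :=
          int_mul u (f := fun t => t ^ j) (by fun_prop)
        have i2 : Integrable (fun x => φ x * (‖x‖ ^ 2) ^ j) (mu (An a b)) :=
          int_mul φ (f := fun t => t ^ j) (by fun_prop)
        have e1 : ∫ x, (Λφ • u - Λu • φ) x * (‖x‖ ^ 2) ^ j ∂(mu (An a b)) =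
            ∫ x, Λφ * (u x * (‖x‖ ^ 2) ^ j) - Λu * (φ x * (‖x‖ ^ 2) ^ j) ∂(mu (An a b)) := by
          apply integral_congr_ae
          filter_upwards [Lp.coeFn_sub (Λφ • u) (Λu • φ), Lp.coeFn_smul Λφ u,
            Lp.coeFn_smul Λu φ] with x h1 h2 h3
          rw [h1, Pi.sub_apply, h2, h3, Pi.smul_apply, Pi.smul_apply, smul_eq_mul, smul_eq_mul]
          ring
        rw [e1, integral_sub (i1.const_mul _) (i2.const_mul _), integral_const_mul,
          integral_const_mul, hβ j u hue, hβ j φ hφe, ← hΛφ, ← hΛu]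
        ring
    refine ⟨Λu / Λφ, ?_⟩
    have h1 : Λφ • u = Λu • φ := sub_eq_zero.1 hv
    calc u = (Λφ)⁻¹ • (Λφ • u) := by rw [smul_smul, inv_mul_cancel₀ hφΛ, one_smul]
      _ = (Λu / Λφ) • φ := by
        rw [h1, smul_smul]
        congr 1
        rw [div_eq_inv_mul]

end

end Pool.Agent.BEK.H62
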